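import Mathlib

/-!
# Simultaneous Diophantine approximation (Dirichlet)
-/

namespace Pool.Agent.Helper5.DP

/-- Dirichlet's theorem for `n` real numbers. -/
theorem dirichlet (n B : ℕ) (hB : 1 ≤ B) (α : Fin n → ℝ) :
    ∃ (q : ℕ) (c : Fin n → ℤ), 1 ≤ q ∧ q ≤ B ^ n ∧ ∀ i, |(q : ℝ) * α i - c i| ≤ 1 / B := by
  classical
  have hB0 : (0 : ℝ) < B := by exact_mod_cast hB
  let g : ℕ → Fin n → ℤ := fun q i => ⌊Int.fract ((q : ℝ) * α i) * B⌋
  have hmaps : ∀ q ∈ Finset.range (B ^ n + 1),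
      g q ∈ Fintype.piFinset fun _ : Fin n => Finset.Ico (0 : ℤ) B := by
    intro q _
    rw [Fintype.mem_piFinset]
    intro i
    rw [Finset.mem_Ico]
    have h0 := Int.fract_nonneg ((q : ℝ) * α i)
    have h1 := Int.fract_lt_one ((q : ℝ) * α i)
    refine ⟨Int.floor_nonneg.2 (by positivity), ?_⟩
    rw [Int.floor_lt]
    push_cast
    nlinarith
  have hcard : (Fintype.piFinset fun _ : Fin n => Finset.Ico (0 : ℤ) B).card <
      (Finset.range (B ^ n + 1)).card := by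
    rw [Fintype.card_piFinset]
    simp
  obtain ⟨q, hq, q', hq', hne, he⟩ := Finset.exists_ne_map_eq_of_card_lt_of_maps_to hcard hmaps
  wlog hlt : q < q' generalizing q q'
  · exact this q' hq' q hq hne.symm he.symm (lt_of_le_of_ne (not_lt.1 hlt) hne.symm)
  refine ⟨q' - q, fun i => ⌊(q' : ℝ) * α i⌋ - ⌊(q : ℝ) * α i⌋, by omega, ?_, fun i => ?_⟩
  · have := Finset.mem_range.1 hq'
    omega
  have h1 : ⌊Int.fract ((q : ℝ) * α i) * B⌋ = ⌊Int.fract ((q' : ℝ) * α i) * B⌋ := congrFun he i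
  have h2 : |Int.fract ((q : ℝ) * α i) * B - Int.fract ((q' : ℝ) * α i) * B| < 1 :=
    Int.abs_sub_lt_one_of_floor_eq_floor h1
  have h3 : ((q' - q : ℕ) : ℝ) = (q' : ℝ) - q := by
    rw [Nat.cast_sub hlt.le]
  rw [h3]
  push_cast
  have h4 : ((q' : ℝ) - q) * α i - ((⌊(q' : ℝ) * α i⌋ : ℝ) - ⌊(q : ℝ) * α i⌋) =
      Int.fract ((q' : ℝ) * α i) - Int.fract ((q : ℝ) * α i) := by
    unfold Int.fract
    ring
  rw [h4, le_div_iff₀ hB0, abs_sub_comm]
  have h5 : |Int.fract ((q : ℝ) * α i) - Int.fract ((q' : ℝ) * α i)| * B =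
      |Int.fract ((q : ℝ) * α i) * B - Int.fract ((q' : ℝ) * α i) * B| := by
    rw [← sub_mul, abs_mul, abs_of_pos hB0]
  rw [h5]
  exact h2.le

/-- A bounded integer vector which is nearly proportional to the integer vector `m`. -/
theorem dir2 (n B : ℕ) (hB : 2 ≤ B) (m : Fin n → ℤ) (hm : m ≠ 0) :
    ∃ (q : ℕ) (c : Fin n → ℤ) (A : ℕ), 1 ≤ A ∧ (∀ i, |m i| ≤ A) ∧ (∃ k, |m k| = A) ∧ 1 ≤ q ∧
      q ≤ B ^ n ∧ c ≠ 0 ∧ (∀ i, |c i| ≤ q) ∧ ∀ i, |(q : ℝ) * m i - A * c i| ≤ A / B := by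
  classical
  have hne : (Finset.univ : Finset (Fin n)).Nonempty := by
    obtain ⟨i, -⟩ := Function.ne_iff.1 hm
    exact ⟨i, Finset.mem_univ i⟩
  obtain ⟨k, -, hk⟩ := Finset.exists_max_image Finset.univ (fun i => |m i|) hne
  have hk' : ∀ i, |m i| ≤ |m k| := fun i => hk i (Finset.mem_univ i)
  have hmk : m k ≠ 0 := by
    intro h0
    apply hm
    funext i
    have := hk' i
    rw [h0, abs_zero] at this
    exact abs_nonpos_iff.1 this
  set A : ℕ := (m k).natAbs with hA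
  have hAk : (A : ℤ) = |m k| := by rw [hA]; exact Int.natCast_natAbs _
  have hA1 : 1 ≤ A := Int.natAbs_pos.2 hmk
  have hA0 : (0 : ℝ) < A := by exact_mod_cast hA1
  obtain ⟨q, c, hq1, hq2, hc⟩ := dirichlet n B (by omega) (fun i => (m i : ℝ) / A)
  have hB2 : (2 : ℝ) ≤ B := by exact_mod_cast hB
  have hBi : (1 : ℝ) / B ≤ 1 / 2 := one_div_le_one_div_of_le (by norm_num) hB2
  have hcq : ∀ i, |c i| ≤ q := by
    intro i
    have h1 := hc i
    have h2 : |(m i : ℝ) / A| ≤ 1 := by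
      rw [abs_div, abs_of_pos hA0, div_le_one hA0]
      have := hk' i
      rw [← hAk] at this
      exact_mod_cast this
    have h3 : |(c i : ℝ)| ≤ q + 1 / 2 := by
      have h4 : |(c i : ℝ)| ≤ |(q : ℝ) * ((m i : ℝ) / A)| + |(q : ℝ) * ((m i : ℝ) / A) - c i| := by
        have := abs_sub_abs_le_abs_sub (c i : ℝ) ((q : ℝ) * ((m i : ℝ) / A))
        rw [abs_sub_comm] at this
        linarith
      have h5 : |(q : ℝ) * ((m i : ℝ) / A)| ≤ q := by
        rw [abs_mul, Nat.abs_cast]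
        nlinarith [(Nat.cast_nonneg q : (0 : ℝ) ≤ q)]
      linarith
    have h4 : |c i| < q + 1 := by
      have : (|c i| : ℝ) < q + 1 := by push_cast; linarith
      exact_mod_cast this
    omega
  refine ⟨q, c, A, hA1, fun i => by rw [hAk]; exact hk' i, ⟨k, hAk.symm⟩, hq1, hq2, ?_, hcq,
    fun i => ?_⟩
  · intro h0
    have h1 := hc k
    rw [h0] at h1
    simp only [Pi.zero_apply, Int.cast_zero, sub_zero] at h1
    have h2 : |(m k : ℝ) / A| = 1 := by
      rw [abs_div, abs_of_pos hA0, div_eq_one_iff_eq hA0.ne']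
      have : ((A : ℤ) : ℝ) = |(m k : ℝ)| := by rw [hAk]; push_cast; rfl
      rw [← this]; simp
    rw [abs_mul, h2, mul_one, Nat.abs_cast] at h1
    have h3 : (1 : ℝ) ≤ q := by exact_mod_cast hq1
    linarith
  · have h1 := hc i
    have h2 : (q : ℝ) * m i - A * c i = A * ((q : ℝ) * ((m i : ℝ) / A) - c i) := by
      field_simp
    rw [h2, abs_mul, abs_of_pos hA0]
    calc (A : ℝ) * |(q : ℝ) * ((m i : ℝ) / A) - c i| ≤ A * (1 / B) :=
          mul_le_mul_of_nonneg_left h1 hA0.le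
      _ = A / B := by ring

end Pool.Agent.Helper5.DP
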